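import Mathlib
import Pool.Agent.H558.KK.Dim2
import Pool.Graph.R_seed8.H413R3.Part.Pt

set_option autoImplicit false

/-!
# Odd values of `p_t` for almost all `t`, with almost no loss (MP_a3366f_nt)

Let `p_t(n)` be the number of `t`-multipartitions of `n`, the coefficient of `q ^ n` in `1 / f_1 ^ t`.

Modulo 2 one has `1 / f_1 ^ (2 ^ k) = 1 + O(q ^ (2 ^ k))`, hence `p_t(n)` modulo 2, `n < 2 ^ k`, depends only
on `t` modulo `2 ^ k`, and `p_t(n)` modulo 2 is defined for all 2-adic integers `t`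
(`parity`, first part of the theorem; for instance `t = -1` and `t = -3` are `f_1` and `f_1 ^ 3`, with
about `√x` odd coefficients up to `x`). Let `Λ(x) = exp (3 (log log x) ^ 2)`, smaller than every power of `x`.

* For almost all odd 2-adic integers `t`: every linear combination `∑ c_i p_t(n + i)`, `c ≠ 0`, is
  on every residue class `ρ` modulo `M` different modulo 2 from the prescribed sequence `w` for more
  than `D x / Λ(x)` of the `n ≤ x`, for all `D` and all large `x`. With `w = 0` and `w = 1` both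
  parities occur as often.
* The same for integers: for all but `C 2 ^ K (Λ(x) / Y) ^ a` of the odd `t < 2 ^ K` there are at least
  `x / Y` such `n ≤ x`, for all `Y`, `1 ≤ Y ≤ x`.
* The set of the exceptional odd `t` with `x ^ (1 - ε)` in the place of `x / Λ(x)`, for some `c` and `ρ`
  modulo `M`, has Hausdorff dimension at most `1 - a ε`.

The earlier result of this kind (`AlmostAllExponents`) has `x ^ (3 / 4)` in the place of `x / Λ(x)`.

Method. Let `q = 2 ^ l`, `P = 1 / f_1` and `U(0) ≠ 0`. The sections of `U P ^ t` modulo 2 at `q n + b` are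
`U' P ^ (t / q)`, `U'` the section of `U P ^ e` at `b`, `e` the last `l` binary digits of `t`. Call a pair `(e, b)`
good if this `U'` has a nonzero coefficient of index less than `4 q ^ 3`. The main lemma: the set of the
good pairs contains a line `b = c e + r` of every slope `c` modulo `q`. For its proof (by contradiction)
a matrix of sections of powers of `Δ = f_1 ^ 24` is shown to be nonsingular; automorphisms of the ring of
the theta series `∑ q ^ (n ^ 2)`, `n` in residue classes modulo `2 ^ κ`, over the field of rational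
functions in `Δ`, move its determinant to one with a nonzero residue, and the norm of the determinant bounds
its order. So the good pairs are a Kakeya set modulo `q`, and by the argument of Cordoba the
number `N_e` of the good `b` has a mean of `1 / N_e` of at most `(l + 1) / q`. With four blocks of every length
`l = 2 ^ i` the sections are followed down to the first 128 coefficients with a total loss of
`exp (3 (log k) ^ 2)` for `k` digits.
-/

namespace Pool.Agent.Results.MP_a3366f_nt.AlmostLinear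

open Finset MeasureTheory

/-- `p_t(n)`: the number of `t`-multipartitions of `n`, the coefficient of `q ^ n` in
`∏ 1 / (1 - q ^ i) ^ t` -/
def multipartitions (t n : ℕ) : ℕ :=
  ∑ x ∈ Finset.Nat.antidiagonalTuple t n, ∏ i, Fintype.card (Nat.Partition (x i))

/-- `p_t(n)` modulo 2 for a 2-adic integer `t`: it is `p_s(n)` modulo 2 for every natural number `s`
that is congruent to `t` modulo `2 ^ k > n` -/
noncomputable def parity (t : ℤ_[2]) (n : ℕ) : ZMod 2 := multipartitions (t.appr (n + 1)) n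

/-- the number of the `n ≤ x` in the residue class `ρ` modulo `M` with `∑ c_i a(n + i) ≠ w(n)` -/
def count (a : ℕ → ZMod 2) (M ρ : ℕ) {L : ℕ} (c : Fin (L + 1) → ZMod 2) (w : ℕ → ZMod 2)
    (x : ℕ) : ℕ :=
  #{n ∈ range (x + 1) | n % M = ρ % M ∧ ∑ i : Fin (L + 1), c i * a (n + i) ≠ w n}

/-- the loss `Λ(x) = exp (3 (log log x) ^ 2)` -/
noncomputable def loss (x : ℕ) : ℝ := Real.exp (3 * Real.log (Real.log x) ^ 2)

private theorem coeff_P2 (t n : ℕ) :
    PowerSeries.coeff n (Pool.Agent.K7.H72.MT.P2 ^ t) = (multipartitions t n : ZMod 2) :=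
  Pool.Agent.H413R3.Part.coeff_pow_eq (t := t) (n := n)

private theorem pat_eq {L : ℕ} (c : Fin (L + 1) → ZMod 2) (t n : ℕ) :
    Pool.Agent.R836.PP.pat c (Pool.Agent.K7.H72.MT.P2 ^ t) n =
      ∑ i : Fin (L + 1), c i * (multipartitions t (n + i) : ZMod 2) := by
  unfold Pool.Agent.R836.PP.pat
  refine sum_congr rfl fun i _ => ?_
  rw [coeff_P2]

private theorem cntP_eq (M ρ : ℕ) {L : ℕ} (c : Fin (L + 1) → ZMod 2) (w : ℕ → ZMod 2) (t x : ℕ) :
    Pool.Agent.K7.H72.MT.cntP M ρ c w t x =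
      count (fun n => (multipartitions t n : ZMod 2)) M ρ c w x := by
  unfold Pool.Agent.K7.H72.MT.cntP count
  simp only [pat_eq]

private theorem parity_eq (t : ℤ_[2]) (n : ℕ) : parity t n = Pool.Agent.K7.H72.MT.pz t n := by
  unfold parity Pool.Agent.K7.H72.MT.pz
  rw [coeff_P2]

private theorem cntZ_eq (M ρ : ℕ) {L : ℕ} (c : Fin (L + 1) → ZMod 2) (w : ℕ → ZMod 2)
    (t : ℤ_[2]) (x : ℕ) : Pool.Agent.K7.H72.MT.cntZ M ρ c w t x = count (parity t) M ρ c w x := by
  unfold Pool.Agent.K7.H72.MT.cntZ count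
  simp only [parity_eq]

private theorem appr_one {t : ℤ_[2]} (h : ‖t‖ = 1) : t.appr 1 = 1 := by
  have h1 := PadicInt.appr_lt t 1
  rw [pow_one] at h1
  by_contra hne
  have h0 : t.appr 1 = 0 := by omega
  have h2 := PadicInt.appr_spec (p := 2) 1 t
  rw [h0, Nat.cast_zero, sub_zero] at h2
  have h3 := (PadicInt.norm_le_pow_iff_mem_span_pow (p := 2) t 1).2 h2
  rw [h] at h3
  norm_num at h3

private theorem parity_wd (t : ℤ_[2]) (s n k : ℕ) (hn : n < 2 ^ k)
    (h : ‖t - s‖ ≤ (2 : ℝ) ^ (-(k : ℤ))) : parity t n = (multipartitions s n : ZMod 2) := by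
  have h2 : ((2 : ℕ) : ℝ) ^ (-(k : ℤ)) = (2 : ℝ) ^ (-(k : ℤ)) := by norm_num
  rw [← h2, PadicInt.norm_le_pow_iff_mem_span_pow] at h
  have h1 := PadicInt.zmod_congr_of_sub_mem_span (p := 2) k t _ _ (PadicInt.appr_spec (p := 2) k t) h
  rw [ZMod.natCast_eq_natCast_iff] at h1
  rw [parity_eq, Pool.Agent.K7.H72.MT.pz_eq t hn, ← coeff_P2]
  exact Pool.Agent.K7.H72.MT.coeff_congr' hn h1

private theorem ncard_eq {K : ℕ} (P : ℕ → Prop) [DecidablePred P] :
    Set.ncard {t : ℕ | t < 2 ^ K ∧ P t} = #{t ∈ range (2 ^ K) | P t} := by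
  rw [← Set.ncard_coe_finset]
  congr 1
  ext t
  simp

/-- **Main result.** -/
theorem result :
    -- the definition of `parity`
    (∀ (t : ℤ_[2]) (s n k : ℕ), n < 2 ^ k → ‖t - s‖ ≤ (2 : ℝ) ^ (-(k : ℤ)) →
      parity t n = (multipartitions s n : ZMod 2)) ∧
    -- almost all odd 2-adic `t`
    (∀ (w : ℕ → ZMod 2) [MeasurableSpace ℤ_[2]] [BorelSpace ℤ_[2]] (μ : Measure ℤ_[2])
      [IsProbabilityMeasure μ] [μ.IsAddLeftInvariant],
      ∀ᵐ t ∂μ, ‖t‖ = 1 → ∀ M : ℕ, 0 < M → ∀ (ρ L : ℕ) (c : Fin (L + 1) → ZMod 2), c ≠ 0 →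
        Filter.Tendsto (fun x : ℕ => (count (parity t) M ρ c w x : ℝ) / (x / loss x))
          Filter.atTop Filter.atTop) ∧
    -- the dimension of the exceptional sets
    (∀ M : ℕ, 0 < M → ∃ a : ℝ, 0 < a ∧ ∀ (w : ℕ → ZMod 2) (ε : ℝ), 0 < ε → ε ≤ 1 →
      dimH {t : ℤ_[2] | ‖t‖ = 1 ∧ ∃ (ρ L : ℕ) (c : Fin (L + 1) → ZMod 2), c ≠ 0 ∧
        ¬ Filter.Tendsto (fun x : ℕ => (count (parity t) M ρ c w x : ℝ) / (x : ℝ) ^ (1 - ε))
          Filter.atTop Filter.atTop} ≤ ENNReal.ofReal (1 - a * ε)) ∧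
    -- almost all odd integers `t`
    (∀ M : ℕ, 0 < M → ∃ a : ℝ, 0 < a ∧ ∀ (ρ L : ℕ) (c : Fin (L + 1) → ZMod 2), c ≠ 0 →
      ∀ w : ℕ → ZMod 2, ∃ C : ℝ, 0 < C ∧ ∀ K x : ℕ, 1 ≤ x → x < 2 ^ K →
        ∀ Y : ℝ, 1 ≤ Y → Y ≤ x →
        (Set.ncard {t : ℕ | t < 2 ^ K ∧ Odd t ∧
          (count (fun n => (multipartitions t n : ZMod 2)) M ρ c w x : ℝ) < x / Y} : ℝ) ≤
            C * 2 ^ K * (loss x / Y) ^ a) := by
  refine ⟨parity_wd, ?_, ?_, ?_⟩
  · intro w _ _ μ _ _
    filter_upwards [Pool.Agent.H558.KK.ae_all' w μ] with t ht h1 M hM ρ L c hc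
    have h := ht (appr_one h1) M hM ρ L c hc
    simp only [cntZ_eq] at h
    exact h
  · intro M hM
    obtain ⟨a, ha, h⟩ := Pool.Agent.H558.KK.dim_all' M hM
    refine ⟨a, ha, fun w ε hε hε1 => le_trans (dimH_mono ?_) (h w ε hε hε1)⟩
    rintro t ⟨h1, ρ, L, c, hc, h2⟩
    refine ⟨appr_one h1, ρ, L, c, hc, ?_⟩
    simp only [cntZ_eq]
    exact h2
  · intro M hM
    obtain ⟨a, ha, h⟩ := Pool.Agent.H558.KK.prog_prob M hM
    refine ⟨a, ha, fun ρ L c hc w => ?_⟩
    obtain ⟨C, hC, h1⟩ := h ρ L c hc w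
    obtain ⟨Cl, hCl, hl⟩ := Pool.Agent.H558.KK.lamx (A := 0) le_rfl
    refine ⟨C * Cl ^ a, by positivity, fun K x hx hxK Y hY hYx => ?_⟩
    have h2 := h1 K x hx hxK Y hY hYx
    have h3 := hl x hx
    rw [Real.rpow_zero, mul_one] at h3
    change _ ≤ Cl * loss x at h3
    classical
    rw [ncard_eq]
    simp only [cntP_eq] at h2
    simp only [Nat.odd_iff]
    have h4 : 0 < loss x := Real.exp_pos _
    have h5 : 0 < Y := by linarith
    calc _ ≤ C * 2 ^ K * ((Pool.Agent.H558.KK.lam (Nat.log 2 x) : ℝ) / Y) ^ a := by convert h2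
      _ ≤ C * 2 ^ K * (Cl * loss x / Y) ^ a := by gcongr
      _ = C * 2 ^ K * (Cl ^ a * (loss x / Y) ^ a) := by
          rw [mul_div_assoc, Real.mul_rpow hCl.le (by positivity)]
      _ = C * Cl ^ a * 2 ^ K * (loss x / Y) ^ a := by ring

end Pool.Agent.Results.MP_a3366f_nt.AlmostLinear
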