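import Mathlib
import Pool.Agent.H558.KK.Dim2
import Pool.Graph.R_seed8.H413R3.Part.Pt

set_option autoImplicit false

/-!
# The odd `t` for which `p_t` has few odd values (MP_a3366f_nt)

Let `p_t(n)` be the number of `t`-multipartitions of `n`, the coefficient of `q ^ n` in `1 / f_1 ^ t`.

Modulo 2 one has `1 / f_1 ^ (2 ^ k) = 1 + O(q ^ (2 ^ k))`, hence `p_t(n)` modulo 2, `n < 2 ^ k`, depends only
on `t` modulo `2 ^ k`, and `p_t(n)` modulo 2 is defined for all 2-adic integers `t`
(`parity`, first part of the theorem; for instance `t = -1` and `t = -3` are `f_1` and `f_1 ^ 3`, with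
about `√x` odd coefficients up to `x`).

* For every pattern `c ≠ 0` and every residue class modulo a power of 2 there is `C` such that for all `K`
  and `B ≥ 1` there are at most `C B exp (3 (log K) ^ 2)` odd integers `t < 2 ^ K` with `∑ c_i p_t(n + i)` odd
  for less than `B` of the `n < 2 ^ K` in the residue class.
* For every `α`, `0 ≤ α < 1`, the set of the odd 2-adic integers `t` for which, for some pattern, some
  residue class modulo a power of 2 and some `D`, there are arbitrarily large `x` with less than `D x ^ α`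
  odd values up to `x`, has Hausdorff dimension at most `α`. For `α = 0`: the set of the odd `t` for which
  the number of the odd values does not tend to infinity, for some pattern and some
  residue class modulo a power of 2, has Hausdorff dimension 0.

So with `T = 2 ^ K`: for all but `T ^ (α + o(1))` of the odd `t < T` there are at least `T ^ α` odd values
`p_t(n)`, `n < T`, for every `α < 1`. The earlier large deviations theorem (`AlmostAllExponents`) has
`C B ^ θ (1 + (20 / 57) ^ θ) ^ K` in the place of `C B exp (3 (log K) ^ 2)`, which for `B = 2 ^ (α K)` is less than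
`2 ^ K` only for `α < 0.76` and is then larger than `2 ^ (α K)` by a power of `2 ^ K`.

Method. Let `q = 2 ^ l`, `P = 1 / f_1` and `U(0) ≠ 0`. The sections of `U P ^ t` modulo 2 at `q n + b` are
`U' P ^ (t / q)`, `U'` the section of `U P ^ e` at `b`, `e` the last `l` binary digits of `t`. Call a pair `(e, b)`
good if this `U'` has a nonzero coefficient of index less than `4 q ^ 3`. The main lemma: the set of the
good pairs contains a line `b = c e + r` of every slope `c` modulo `q`. For its proof (by contradiction)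
a matrix of sections of powers of `Δ = f_1 ^ 24` is shown to be nonsingular; automorphisms of the ring of
the theta series `∑ q ^ (n ^ 2)`, `n` in residue classes modulo `2 ^ κ`, over the field of rational
functions in `Δ`, move its determinant to one with a nonzero residue, and the norm of the determinant bounds
its order. So the good pairs are a Kakeya set modulo `q`, and by the argument of Cordoba the
number `N_e` of the good `b` has a mean of `1 / N_e` of at most `(l + 1) / q`. With four blocks of every length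
`l = 2 ^ i` the sections are followed down to the first 128 coefficients with a total loss of
`exp (3 (log k) ^ 2)` for `k` digits.
-/

namespace Pool.Agent.Results.MP_a3366f_nt.FewOddValues

open Finset MeasureTheory

/-- `p_t(n)`: the number of `t`-multipartitions of `n`, the coefficient of `q ^ n` in
`∏ 1 / (1 - q ^ i) ^ t` -/
def multipartitions (t n : ℕ) : ℕ :=
  ∑ x ∈ Finset.Nat.antidiagonalTuple t n, ∏ i, Fintype.card (Nat.Partition (x i))

/-- `p_t(n)` modulo 2 for a 2-adic integer `t`: it is `p_s(n)` modulo 2 for every natural number `s`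
that is congruent to `t` modulo `2 ^ k > n` -/
noncomputable def parity (t : ℤ_[2]) (n : ℕ) : ZMod 2 := multipartitions (t.appr (n + 1)) n

/-- the number of the `n ≤ x` in the residue class `ρ` modulo `m` with `∑ c_i a(n + i)` odd -/
def oddCount (a : ℕ → ZMod 2) (m ρ : ℕ) {L : ℕ} (c : Fin (L + 1) → ZMod 2) (x : ℕ) : ℕ :=
  #{n ∈ range (x + 1) | n % m = ρ % m ∧ ∑ i : Fin (L + 1), c i * a (n + i) = 1}

private theorem coeff_P2 (t n : ℕ) :
    PowerSeries.coeff n (Pool.Agent.K7.H72.MT.P2 ^ t) = (multipartitions t n : ZMod 2) :=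
  Pool.Agent.H413R3.Part.coeff_pow_eq (t := t) (n := n)

private theorem pat_eq {L : ℕ} (c : Fin (L + 1) → ZMod 2) (t n : ℕ) :
    Pool.Agent.R836.PP.pat c (Pool.Agent.K7.H72.MT.P2 ^ t) n =
      ∑ i : Fin (L + 1), c i * (multipartitions t (n + i) : ZMod 2) := by
  unfold Pool.Agent.R836.PP.pat
  refine sum_congr rfl fun i _ => ?_
  rw [coeff_P2]

private theorem parity_eq (t : ℤ_[2]) (n : ℕ) : parity t n = Pool.Agent.K7.H72.MT.pz t n := by
  unfold parity Pool.Agent.K7.H72.MT.pz
  rw [coeff_P2]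

private theorem ne_zero_iff (x : ZMod 2) : x ≠ 0 ↔ x = 1 := by
  revert x
  decide

private theorem cntZ_eq (M ρ : ℕ) {L : ℕ} (c : Fin (L + 1) → ZMod 2) (t : ℤ_[2]) (x : ℕ) :
    Pool.Agent.K7.H72.MT.cntZ M ρ c (fun _ => 0) t x = oddCount (parity t) M ρ c x := by
  unfold Pool.Agent.K7.H72.MT.cntZ oddCount
  simp only [parity_eq, ne_zero_iff]

private theorem appr_one {t : ℤ_[2]} (h : ‖t‖ = 1) : t.appr 1 = 1 := by
  have h1 := PadicInt.appr_lt t 1
  rw [pow_one] at h1
  by_contra hne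
  have h0 : t.appr 1 = 0 := by omega
  have h2 := PadicInt.appr_spec (p := 2) 1 t
  rw [h0, Nat.cast_zero, sub_zero] at h2
  have h3 := (PadicInt.norm_le_pow_iff_mem_span_pow (p := 2) t 1).2 h2
  rw [h] at h3
  norm_num at h3

private theorem parity_wd (t : ℤ_[2]) (s n k : ℕ) (hn : n < 2 ^ k)
    (h : ‖t - s‖ ≤ (2 : ℝ) ^ (-(k : ℤ))) : parity t n = (multipartitions s n : ZMod 2) := by
  have h2 : ((2 : ℕ) : ℝ) ^ (-(k : ℤ)) = (2 : ℝ) ^ (-(k : ℤ)) := by norm_num
  rw [← h2, PadicInt.norm_le_pow_iff_mem_span_pow] at h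
  have h1 := PadicInt.zmod_congr_of_sub_mem_span (p := 2) k t _ _ (PadicInt.appr_spec (p := 2) k t) h
  rw [ZMod.natCast_eq_natCast_iff] at h1
  rw [parity_eq, Pool.Agent.K7.H72.MT.pz_eq t hn, ← coeff_P2]
  exact Pool.Agent.K7.H72.MT.coeff_congr' hn h1

private theorem ncard_eq {K : ℕ} (P : ℕ → Prop) [DecidablePred P] :
    Set.ncard {t : ℕ | t < 2 ^ K ∧ P t} = #{t ∈ range (2 ^ K) | P t} := by
  rw [← Set.ncard_coe_finset]
  congr 1
  ext t
  simp

private theorem inner_eq {L : ℕ} (b ρ : ℕ) (c : Fin (L + 1) → ZMod 2) (K t : ℕ) :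
    Set.ncard {n : ℕ | n < 2 ^ K ∧ n % 2 ^ b = ρ % 2 ^ b ∧
        ∑ i : Fin (L + 1), c i * (multipartitions t (n + i) : ZMod 2) = 1} =
      #{n ∈ range (2 ^ K) | n % 2 ^ b = ρ % 2 ^ b ∧
        Pool.Agent.R836.PP.pat c (Pool.Agent.K7.H72.MT.P2 ^ t) n ≠ 0} := by
  rw [ncard_eq]
  simp only [pat_eq, ne_zero_iff]

private theorem large (b ρ L : ℕ) (c : Fin (L + 1) → ZMod 2) (hc : c ≠ 0) :
    ∃ C : ℝ, 0 < C ∧ ∀ K B : ℕ, 1 ≤ B → (Set.ncard {t : ℕ | t < 2 ^ K ∧ Odd t ∧
      Set.ncard {n : ℕ | n < 2 ^ K ∧ n % 2 ^ b = ρ % 2 ^ b ∧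
        ∑ i : Fin (L + 1), c i * (multipartitions t (n + i) : ZMod 2) = 1} < B} : ℝ) ≤
          C * B * Real.exp (3 * Real.log K ^ 2) := by
  classical
  obtain ⟨C, hC, h⟩ := Pool.Agent.H558.KK.ld_final b ρ L c hc
  obtain ⟨C', hC', h'⟩ := Pool.Agent.H558.KK.lam_log (A := 0) le_rfl
  refine ⟨C * C', by positivity, fun K B hB => ?_⟩
  have h1 := h K B (by exact_mod_cast hB)
  have h2 : (Pool.Agent.H558.KK.lam K : ℝ) ≤ C' * Real.exp (3 * Real.log K ^ 2) := by
    have h3 := h' K (Real.log K) (by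
      rcases Nat.eq_zero_or_pos K with h0 | h0
      · rw [h0]
        norm_num
      · have hK : (0 : ℝ) < K := by exact_mod_cast h0
        rw [Real.exp_log hK]
        linarith)
    rwa [Real.rpow_zero, mul_one] at h3
  simp only [inner_eq, Nat.odd_iff]
  rw [ncard_eq]
  have h4 : ∀ t : ℕ, (#{n ∈ range (2 ^ K) | n % 2 ^ b = ρ % 2 ^ b ∧
      Pool.Agent.R836.PP.pat c (Pool.Agent.K7.H72.MT.P2 ^ t) n ≠ 0} < B) ↔
      ((#{n ∈ range (2 ^ K) | n % 2 ^ b = ρ % 2 ^ b ∧
        Pool.Agent.R836.PP.pat c (Pool.Agent.K7.H72.MT.P2 ^ t) n ≠ 0} : ℝ) < B) := by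
    intro t
    exact Nat.cast_lt.symm
  simp only [h4]
  calc _ ≤ C * B * (Pool.Agent.H558.KK.lam K : ℝ) := h1
    _ ≤ C * B * (C' * Real.exp (3 * Real.log K ^ 2)) := by gcongr
    _ = C * C' * B * Real.exp (3 * Real.log K ^ 2) := by ring

/-- **Main result.** -/
theorem result :
    -- large deviations
    (∀ (b ρ L : ℕ) (c : Fin (L + 1) → ZMod 2), c ≠ 0 → ∃ C : ℝ, 0 < C ∧
      ∀ K B : ℕ, 1 ≤ B → (Set.ncard {t : ℕ | t < 2 ^ K ∧ Odd t ∧
        Set.ncard {n : ℕ | n < 2 ^ K ∧ n % 2 ^ b = ρ % 2 ^ b ∧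
          ∑ i : Fin (L + 1), c i * (multipartitions t (n + i) : ZMod 2) = 1} < B} : ℝ) ≤
            C * B * Real.exp (3 * Real.log K ^ 2)) ∧
    -- the definition of `parity`
    (∀ (t : ℤ_[2]) (s n k : ℕ), n < 2 ^ k → ‖t - s‖ ≤ (2 : ℝ) ^ (-(k : ℤ)) →
      parity t n = (multipartitions s n : ZMod 2)) ∧
    -- the dimension of the set of the exceptional 2-adic `t`
    (∀ α : ℝ, 0 ≤ α → α < 1 →
      dimH {t : ℤ_[2] | ‖t‖ = 1 ∧ ∃ (b ρ L : ℕ) (c : Fin (L + 1) → ZMod 2), c ≠ 0 ∧
        ¬ Filter.Tendsto (fun x : ℕ =>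
          (oddCount (parity t) (2 ^ b) ρ c x : ℝ) / (x : ℝ) ^ α)
          Filter.atTop Filter.atTop} ≤ ENNReal.ofReal α) := by
  refine ⟨large, parity_wd, fun α hα hα1 => ?_⟩
  refine le_trans (dimH_mono ?_) (Pool.Agent.H558.KK.dim_alpha α hα hα1)
  rintro t ⟨h1, b, ρ, L, c, hc, h2⟩
  refine ⟨appr_one h1, b, ρ, L, c, hc, ?_⟩
  simp only [cntZ_eq]
  exact h2

end Pool.Agent.Results.MP_a3366f_nt.FewOddValues
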