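import Mathlib
import Pool.Agent.H558.PP.DAsm
import Pool.Agent.H558.TW.IntT
import Pool.Agent.H558.TW.Asm7
import Pool.Graph.R_seed8.H413R3.Part.Pt

set_option autoImplicit false

/-!
# A positive proportion of odd values of `p_t` for almost all odd `t` (MP_a3366f_nt)

Let `p_t(n)` be the number of `t`-multipartitions of `n`, the coefficient of `q ^ n` in `1 / f_1 ^ t`.
Modulo 2 it is defined for all 2-adic integers `t` (`parity`, part 1).

* (2) For all `M` and `ε > 0` there is `δ > 0` such that for every residue class `ρ` modulo `M` and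
  every pattern `c ≠ 0` over `F_2`: for `T ≥ x ≥ x₀` and every sequence `w`, for all but `ε T` of the
  odd `t ≤ T` at least `δ x` of the `n ≤ x`, `n ≡ ρ` modulo `M`, have `∑ c_i p_t(n + i) ≠ w(n)` modulo
  2. With `w = 0` and `w = 1`: a positive proportion of odd and of even values.
* (3) For each `M` there is `κ > 0` such that for all `ρ`, `c ≠ 0`, `ε > 0`, all `w` and `T`, for all but `ε T`
  of the odd integers `t ≤ T` the sum of `1 / (n + 1)` over the `n ≤ x`, `n ≡ ρ` modulo `M` with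
  `∑ c_i p_t(n + i) ≠ w(n)` is at least `κ log x`, for all `x` from `x₀` (which does not depend on `w` and
  `T`) to `T` at once.
* (4) For each `M` there is `κ > 0` such that for given `w` and almost every odd 2-adic `t` the set of the
  `n ≡ ρ` modulo `M` with `∑ c_i p_t(n + i) ≠ w(n)` has lower logarithmic density at least `κ`, for all
  `ρ` and all patterns `c ≠ 0` (so its upper density is at least `κ`).
* (5) For all `M`, `ε > 0` there is `δ > 0` such that for given `w` and almost every odd 2-adic `t`, for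
  all `ρ` and all `c ≠ 0`: for all but `ε K` of the `k < K`, `K` large, at least `δ 2 ^ k` of the `n ≤ 2 ^ k` are
  in this set.
* (6) For almost every odd 2-adic `t` the same sets have, for all large `x`, more than
  `x / (log x) ^ α` elements up to `x`, `α` depending on `M`; for `M` a power of 2 and `w = 0` (odd
  values) one may take every `α > 1`.

Earlier results of this kind have `x ^ (3 / 4)` and `x / exp (3 (log log x) ^ 2)` for almost all `t`, and
`√x` for every `t`.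

Method. Let `P = 1 / f_1`, `q = 2 ^ l`. The sections of `U P ^ t` modulo 2 at `q n + b` are
`U' P ^ (t / q)`; call `(t, b)`, `t, b < q`, dead if the lowest exponent of `U'` is at least `4 q ^ 3`
(for `U(0) ≠ 0`). For every slope `a` modulo `q` there are a class `n_a` and a series `Y_a`,
`Y_a(0) = 1`, such that for every dead `(t, b)` the coefficient of `Y_a P ^ t` with the index
`b + a (t - 24 b) - n_a` modulo `q` vanishes (fat line lemma): the determinants of the matrices of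
sections of powers of `Δ = f_1 ^ 24` over families of dead points vanish, by an estimate of their order by
a norm; automorphisms over the field of rational functions in `Δ` move them to the direction `a`. The
windows `index < 2 ^ w`, `w` about `(log l) ^ 3`, of the `q` directions form a Kakeya type family; their
multiplicity function is almost constant on most cells modulo `2 ^ (2 w)`, by a comparison of second moments,
hence a positive part of these cells has nearly no dead point. Repeating this for the other cells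
the part of the dead points whose ancestors are good is at most `exp (-(log l) ^ 3)`, and a chain of
blocks with decreasing lengths leads to a bounded threshold with a bounded loss. For (3), (4), (5): the
exceptional sets of `t` of the steps of a chain of blocks with slowly growing lengths are summable, so no
bound for the lowest exponents of all sections is needed, only that the sections are nonzero.
-/

namespace Pool.Agent.Results.MP_a3366f_nt.PositiveProportion

open Finset MeasureTheory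

/-- `p_t(n)`: the number of `t`-multipartitions of `n`, the coefficient of `q ^ n` in
`∏ 1 / (1 - q ^ i) ^ t` -/
def multipartitions (t n : ℕ) : ℕ :=
  ∑ x ∈ Finset.Nat.antidiagonalTuple t n, ∏ i, Fintype.card (Nat.Partition (x i))

/-- `p_t(n)` modulo 2 for a 2-adic integer `t`: it is `p_s(n)` modulo 2 for every natural number `s`
that is congruent to `t` modulo `2 ^ k > n` -/
noncomputable def parity (t : ℤ_[2]) (n : ℕ) : ZMod 2 := multipartitions (t.appr (n + 1)) n

/-- the number of the `n ≤ x` in the residue class `ρ` modulo `M` with `∑ c_i a(n + i) ≠ w(n)` -/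
def count (a : ℕ → ZMod 2) (M ρ : ℕ) {L : ℕ} (c : Fin (L + 1) → ZMod 2) (w : ℕ → ZMod 2)
    (x : ℕ) : ℕ :=
  #{n ∈ range (x + 1) | n % M = ρ % M ∧ ∑ i : Fin (L + 1), c i * a (n + i) ≠ w n}

/-- the sum of the `1 / (n + 1)` over the `n ≤ x` in the residue class `ρ` modulo `M` with
`∑ c_i a(n + i) ≠ w(n)` -/
noncomputable def logCount (a : ℕ → ZMod 2) (M ρ : ℕ) {L : ℕ} (c : Fin (L + 1) → ZMod 2)
    (w : ℕ → ZMod 2) (x : ℕ) : ℝ :=
  ∑ n ∈ range (x + 1) with n % M = ρ % M ∧ ∑ i : Fin (L + 1), c i * a (n + i) ≠ w n,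
    1 / ((n : ℝ) + 1)

private theorem coeff_P2 (t n : ℕ) :
    PowerSeries.coeff n (Pool.Agent.K7.H72.MT.P2 ^ t) = (multipartitions t n : ZMod 2) :=
  Pool.Agent.H413R3.Part.coeff_pow_eq (t := t) (n := n)

private theorem pat_eq {L : ℕ} (c : Fin (L + 1) → ZMod 2) (t n : ℕ) :
    Pool.Agent.R836.PP.pat c (Pool.Agent.K7.H72.MT.P2 ^ t) n =
      ∑ i : Fin (L + 1), c i * (multipartitions t (n + i) : ZMod 2) := by
  unfold Pool.Agent.R836.PP.pat
  refine sum_congr rfl fun i _ => ?_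
  rw [coeff_P2]

private theorem cntP_eq (M ρ : ℕ) {L : ℕ} (c : Fin (L + 1) → ZMod 2) (w : ℕ → ZMod 2) (t x : ℕ) :
    Pool.Agent.K7.H72.MT.cntP M ρ c w t x =
      count (fun n => (multipartitions t n : ZMod 2)) M ρ c w x := by
  unfold Pool.Agent.K7.H72.MT.cntP count
  simp only [pat_eq]

private theorem LG1_eq (M ρ : ℕ) {L : ℕ} (c : Fin (L + 1) → ZMod 2) (w : ℕ → ZMod 2) (t x : ℕ) :
    Pool.Agent.H558.TW.LG1 M ρ c w t x =
      logCount (fun n => (multipartitions t n : ZMod 2)) M ρ c w x := by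
  unfold Pool.Agent.H558.TW.LG1 logCount
  simp only [pat_eq]

private theorem parity_eq (t : ℤ_[2]) (n : ℕ) : parity t n = Pool.Agent.K7.H72.MT.pz t n := by
  unfold parity Pool.Agent.K7.H72.MT.pz
  rw [coeff_P2]

private theorem cntZ_eq (M ρ : ℕ) {L : ℕ} (c : Fin (L + 1) → ZMod 2) (w : ℕ → ZMod 2)
    (t : ℤ_[2]) (x : ℕ) : Pool.Agent.K7.H72.MT.cntZ M ρ c w t x = count (parity t) M ρ c w x := by
  unfold Pool.Agent.K7.H72.MT.cntZ count
  simp only [parity_eq]

private theorem LZ1_eq (M ρ : ℕ) {L : ℕ} (c : Fin (L + 1) → ZMod 2) (w : ℕ → ZMod 2)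
    (t : ℤ_[2]) (x : ℕ) : Pool.Agent.H558.TW.LZ1 M ρ c w t x =
      logCount (parity t) M ρ c w x := by
  unfold Pool.Agent.H558.TW.LZ1 logCount
  simp only [parity_eq]

open scoped Classical in
private theorem ncard_eq (p : ℕ → Prop) (K : ℕ) :
    Set.ncard {k : ℕ | k < K ∧ p k} = #{k ∈ range K | p k} := by
  rw [← Set.ncard_coe_finset]
  congr 1
  ext k
  simp

private theorem appr_one {t : ℤ_[2]} (h : ‖t‖ = 1) : t.appr 1 = 1 := by
  have h1 := PadicInt.appr_lt t 1
  rw [pow_one] at h1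
  by_contra hne
  have h0 : t.appr 1 = 0 := by omega
  have h2 := PadicInt.appr_spec (p := 2) 1 t
  rw [h0, Nat.cast_zero, sub_zero] at h2
  have h3 := (PadicInt.norm_le_pow_iff_mem_span_pow (p := 2) t 1).2 h2
  rw [h] at h3
  norm_num at h3

private theorem parity_wd (t : ℤ_[2]) (s n k : ℕ) (hn : n < 2 ^ k)
    (h : ‖t - s‖ ≤ (2 : ℝ) ^ (-(k : ℤ))) : parity t n = (multipartitions s n : ZMod 2) := by
  have h2 : ((2 : ℕ) : ℝ) ^ (-(k : ℤ)) = (2 : ℝ) ^ (-(k : ℤ)) := by norm_num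
  rw [← h2, PadicInt.norm_le_pow_iff_mem_span_pow] at h
  have h1 := PadicInt.zmod_congr_of_sub_mem_span (p := 2) k t _ _ (PadicInt.appr_spec (p := 2) k t) h
  rw [ZMod.natCast_eq_natCast_iff] at h1
  rw [parity_eq, Pool.Agent.K7.H72.MT.pz_eq t hn, ← coeff_P2]
  exact Pool.Agent.K7.H72.MT.coeff_congr' hn h1

/-- **Main result.** -/
theorem result :
    -- (1) the definition of `parity`
    (∀ (t : ℤ_[2]) (s n k : ℕ), n < 2 ^ k → ‖t - s‖ ≤ (2 : ℝ) ^ (-(k : ℤ)) →
      parity t n = (multipartitions s n : ZMod 2)) ∧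
    -- (2) almost all odd integers `t`: positive proportion
    (∀ M : ℕ, 0 < M → ∀ ε : ℝ, 0 < ε → ∃ δ : ℝ, 0 < δ ∧
      ∀ (ρ L : ℕ) (c : Fin (L + 1) → ZMod 2), c ≠ 0 → ∃ x₀ : ℕ, ∀ (w : ℕ → ZMod 2) (x T : ℕ),
        x₀ ≤ x → x ≤ T →
        (Set.ncard {t : ℕ | t ≤ T ∧ Odd t ∧
          (count (fun n => (multipartitions t n : ZMod 2)) M ρ c w x : ℝ) < δ * x} : ℝ) ≤ ε * T) ∧
    -- (3) almost all odd integers `t`, all `x ≤ T` at once: logarithmic mean
    (∀ M : ℕ, 0 < M → ∃ κ : ℝ, 0 < κ ∧ ∀ (ρ L : ℕ) (c : Fin (L + 1) → ZMod 2), c ≠ 0 →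
      ∀ ε : ℝ, 0 < ε → ∃ x₀ : ℕ, ∀ (w : ℕ → ZMod 2) (T : ℕ),
        (Set.ncard {t : ℕ | t ≤ T ∧ Odd t ∧ ∃ x : ℕ, x₀ ≤ x ∧ x ≤ T ∧
          logCount (fun n => (multipartitions t n : ZMod 2)) M ρ c w x < κ * Real.log x} : ℝ) ≤
            ε * T) ∧
    -- (4) almost all odd 2-adic `t`, all patterns: lower logarithmic density
    (∀ M : ℕ, 0 < M → ∃ κ : ℝ, 0 < κ ∧ ∀ (w : ℕ → ZMod 2) [MeasurableSpace ℤ_[2]]
      [BorelSpace ℤ_[2]] (μ : Measure ℤ_[2]) [IsProbabilityMeasure μ] [μ.IsAddLeftInvariant],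
      ∀ᵐ t ∂μ, ‖t‖ = 1 → ∀ (ρ L : ℕ) (c : Fin (L + 1) → ZMod 2), c ≠ 0 → ∃ x₀ : ℕ,
        ∀ x : ℕ, x₀ ≤ x → κ * Real.log x ≤ logCount (parity t) M ρ c w x) ∧
    -- (5) almost all odd 2-adic `t`, all patterns: a positive proportion at most scales
    (∀ M : ℕ, 0 < M → ∀ ε : ℝ, 0 < ε → ∃ δ : ℝ, 0 < δ ∧ ∀ (w : ℕ → ZMod 2)
      [MeasurableSpace ℤ_[2]] [BorelSpace ℤ_[2]] (μ : Measure ℤ_[2]) [IsProbabilityMeasure μ]
      [μ.IsAddLeftInvariant], ∀ᵐ t ∂μ, ‖t‖ = 1 →
        ∀ (ρ L : ℕ) (c : Fin (L + 1) → ZMod 2), c ≠ 0 → ∃ K₀ : ℕ, ∀ K : ℕ, K₀ ≤ K →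
          (Set.ncard {k : ℕ | k < K ∧
            (count (parity t) M ρ c w (2 ^ k) : ℝ) < δ * 2 ^ k} : ℝ) ≤ ε * K) ∧
    -- (6) almost all odd 2-adic `t`, all patterns: lower bounds for all large `x`
    (∀ (w : ℕ → ZMod 2) [MeasurableSpace ℤ_[2]] [BorelSpace ℤ_[2]] (μ : Measure ℤ_[2])
      [IsProbabilityMeasure μ] [μ.IsAddLeftInvariant],
      ∀ᵐ t ∂μ, ‖t‖ = 1 →
        (∀ M : ℕ, 0 < M → ∃ α : ℝ, 0 < α ∧ ∀ (ρ L : ℕ) (c : Fin (L + 1) → ZMod 2), c ≠ 0 →
          ∃ x₀ : ℕ, ∀ x : ℕ, x₀ ≤ x →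
            (x : ℝ) / Real.log x ^ α ≤ count (parity t) M ρ c w x) ∧
        (∀ α : ℝ, 1 < α → ∀ (b ρ L : ℕ) (c : Fin (L + 1) → ZMod 2), c ≠ 0 →
          ∃ x₀ : ℕ, ∀ x : ℕ, x₀ ≤ x →
            (x : ℝ) / Real.log x ^ α ≤ count (parity t) (2 ^ b) ρ c (fun _ => 0) x)) := by
  classical
  refine ⟨parity_wd, ?_, ?_, ?_, ?_, ?_⟩
  · intro M hM ε hε
    obtain ⟨δ, hδ, h⟩ := Pool.Agent.H558.PP.hT7 M hM (ε / 2) (half_pos hε)
    refine ⟨δ, hδ, fun ρ L c hc => ?_⟩
    obtain ⟨x₀, h1⟩ := h ρ L c hc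
    refine ⟨max x₀ 1, fun w x T hx hxT => ?_⟩
    have hx0 : x₀ ≤ x := (le_max_left _ _).trans hx
    have hT0 : T ≠ 0 := by
      have : 1 ≤ x := (le_max_right _ _).trans hx
      omega
    set K := Nat.log 2 T + 1 with hK
    have hTK : T < 2 ^ K := Nat.lt_pow_succ_log_self (by norm_num) T
    have hKT : 2 ^ K ≤ 2 * T := by
      rw [hK, pow_succ, mul_comm]
      exact Nat.mul_le_mul_left 2 (Nat.pow_log_le_self 2 hT0)
    have h2 := h1 w x K hx0 (lt_of_le_of_lt hxT hTK)
    simp only [cntP_eq] at h2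
    have h3 : Set.ncard {t : ℕ | t ≤ T ∧ Odd t ∧
        (count (fun n => (multipartitions t n : ZMod 2)) M ρ c w x : ℝ) < δ * x} ≤
        #{t ∈ range (2 ^ K) | t % 2 = 1 ∧
          (count (fun n => (multipartitions t n : ZMod 2)) M ρ c w x : ℝ) < δ * x} := by
      rw [← Set.ncard_coe_finset]
      refine Set.ncard_le_ncard ?_ (Finset.finite_toSet _)
      rintro t ⟨ht1, ht2, ht3⟩
      rw [Finset.mem_coe, Finset.mem_filter, Finset.mem_range]
      exact ⟨by omega, Nat.odd_iff.1 ht2, ht3⟩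
    have hKT' : (2 : ℝ) ^ K ≤ 2 * T := by exact_mod_cast hKT
    calc _ ≤ ((#{t ∈ range (2 ^ K) | t % 2 = 1 ∧
          (count (fun n => (multipartitions t n : ZMod 2)) M ρ c w x : ℝ) < δ * x} : ℕ) : ℝ) := by
          exact_mod_cast h3
      _ ≤ ε / 2 * 2 ^ K := h2
      _ ≤ ε / 2 * (2 * T) := by gcongr
      _ = ε * T := by ring
  · intro M hM
    obtain ⟨κ, hκ, h⟩ := Pool.Agent.H558.TW.int1 M hM
    refine ⟨κ, hκ, fun ρ L c hc ε hε => ?_⟩
    obtain ⟨x₀, h1⟩ := h ρ L c hc ε hε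
    refine ⟨x₀, fun w T => ?_⟩
    have h2 := h1 w T
    simp only [LG1_eq] at h2
    exact h2
  · intro M hM
    obtain ⟨κ, hκ, h⟩ := Pool.Agent.H558.TW.hGE1 M hM
    refine ⟨κ, hκ, fun w _ _ μ _ _ => ?_⟩
    filter_upwards [h w μ] with t ht h1 ρ L c hc
    have h2 := ht (appr_one h1) ρ L c hc
    simp only [LZ1_eq] at h2
    exact h2
  · intro M hM ε hε
    obtain ⟨δ, hδ, h⟩ := Pool.Agent.H558.TW.hHE1 M hM ε hε
    refine ⟨δ, hδ, fun w _ _ μ _ _ => ?_⟩
    filter_upwards [h w μ] with t ht h1 ρ L c hc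
    obtain ⟨K₀, h2⟩ := ht (appr_one h1) ρ L c hc
    refine ⟨K₀, fun K hK => ?_⟩
    have h3 := h2 K hK
    simp only [cntZ_eq] at h3
    rw [ncard_eq]
    convert h3
  · intro w _ _ μ _ _
    filter_upwards [Pool.Agent.H558.PP.hQ9 w μ, Pool.Agent.H558.PP.hQ10 μ] with t h9 h10 h1
    have ht := appr_one h1
    refine ⟨?_, ?_⟩
    · intro M hM
      have h := h9 ht M hM
      simp only [cntZ_eq] at h
      exact h
    · intro α hα b ρ L c hc
      have h := h10 ht (α - 1) (by linarith) b ρ L c hc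
      simp only [cntZ_eq, add_sub_cancel] at h
      exact h

end Pool.Agent.Results.MP_a3366f_nt.PositiveProportion
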