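import Mathlib
import Pool.Agent.H558.TW.Asm3
import Pool.Agent.H558.TW.IntT
import Pool.Agent.H558.TW.Asm7
import Pool.Graph.R_seed8.H413R3.Part.Pt

set_option autoImplicit false

/-!
# The joint distribution of two patterns of `p_t` modulo 2 for almost all odd `t` (MP_a3366f_nt)

Let `p_t(n)` be the number of `t`-multipartitions of `n`, the coefficient of `q ^ n` in `1 / f_1 ^ t`.
Modulo 2 it is defined for all 2-adic integers `t` (`parity`, part 1).

* (2) For all `b` and `ε > 0` there is `δ > 0` such that for every residue class `ρ` modulo `2 ^ b` and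
  all linearly independent patterns `c`, `c'` over `F_2` there is `x₀` such that for `T ≥ x ≥ x₀` and all
  sequences `w`, `w'`, for all but `ε T` of the odd `t ≤ T`, at least `δ x` of the `n ≤ x`, `n ≡ ρ`
  modulo `2 ^ b`, have both `∑ c_i p_t(n + i) ≠ w(n)` and `∑ c'_i p_t(n + i) ≠ w'(n)` modulo 2.
* (3) For all `b` there is `κ > 0` such that for all `ρ`, all linearly independent `c`, `c'`, `ε > 0`, all `w`,
  `w'` and `T`, for all but `ε T` of the odd integers `t ≤ T` the sum of `1 / (n + 1)` over the `n ≤ x`,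
  `n ≡ ρ` modulo `2 ^ b`, with both inequalities is at least `κ log x`, for all `x` from `x₀` (which does
  not depend on `w`, `w'`, `T`) to `T` at once.
* (4) For all `b` there is `κ > 0` such that for given `w`, `w'` and almost every odd 2-adic `t`, for all
  `ρ` and all linearly independent `c`, `c'` the set of the `n ≡ ρ` modulo `2 ^ b` with both inequalities
  has lower logarithmic density at least `κ` (so its upper density is at least `κ`).
* (5) For all `b`, `ε > 0` there is `δ > 0` such that for given `w`, `w'` and almost every odd 2-adic `t`,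
  for all `ρ` and all linearly independent `c`, `c'`: for all but `ε K` of the `k < K`, `K` large, at least
  `δ 2 ^ k` of the `n ≤ 2 ^ k` are in this set.
* (6) For all `b` there is `κ > 0` such that for almost every odd 2-adic `t`, all `ρ` and `0 < h₁ < h₂`
  all but at most one of the eight triples of parities of `(p_t(n), p_t(n + h₁), p_t(n + h₂))` occur
  with upper density at least `κ` on the class `ρ` modulo `2 ^ b`.

With constant sequences `w`, `w'`: any two independent linear forms, for example `p_t(n)` and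
`p_t(n + h)`, take each of the four pairs of values for a positive proportion of the `n`. The result
PositiveProportion of the same folder treats one linear form `∑ c_i p_t(n + i)` at a time and gives no
pair of values (a set of three pairs may take both values under every nonzero linear form).

Method. Let `P = 1 / f_1`. All sections of `∑ c_i q ^ (L - i) P ^ t`, `t` odd, are nonzero. By the
theorem on dead sections of PositiveProportion (few dead sections over a section which is good with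
respect to a threshold growing with the level) this alone implies that the mean proportion of the
sections with lowest exponent at least `V` tends to 0 as `V → ∞`; so for most `t` and most residue
classes modulo `2 ^ k` the three sections for `c`, `c'`, `c + c'` have lowest exponents below `V`. If `H_0`,
`H_1` and `H_0 + H_1` are such sections, and `u` is the least exponent of the two series, then at the place
`m = u + 2 ^ j`, `2 ^ j ≥ V`, the pair of the coefficients of `H_0 P ^ τ`, `H_1 P ^ τ` takes all four values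
for `τ < 2 ^ (j + 1)`. As the sections have to be good again at the next trial, the trials are done at
levels `k + i (j + 1)`, with a weight argument in place of independence. For (3), (4), (5): the exceptional sets of
`t` of the steps of a chain of blocks with slowly growing lengths are summable, so for almost all `t` the
proportion of the sections of level `k` with lowest exponent above `exp (k ^ (1/4))` is small for all large
`k` at once, without any bound for the lowest exponents of all sections; a law of large numbers for the last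
part of the chain then gives the mean over the levels. The constant in (6) does not depend on `t` by a
zero-one law.
-/

namespace Pool.Agent.Results.MP_a3366f_nt.TwoPatterns

open Finset MeasureTheory

/-- `p_t(n)`: the number of `t`-multipartitions of `n`, the coefficient of `q ^ n` in
`∏ 1 / (1 - q ^ i) ^ t` -/
def multipartitions (t n : ℕ) : ℕ :=
  ∑ x ∈ Finset.Nat.antidiagonalTuple t n, ∏ i, Fintype.card (Nat.Partition (x i))

/-- `p_t(n)` modulo 2 for a 2-adic integer `t`: it is `p_s(n)` modulo 2 for every natural number `s`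
that is congruent to `t` modulo `2 ^ k > n` -/
noncomputable def parity (t : ℤ_[2]) (n : ℕ) : ZMod 2 := multipartitions (t.appr (n + 1)) n

/-- the number of the `n ≤ x` in the residue class `ρ` modulo `M` with `∑ c_i a(n + i) ≠ w(n)` and
`∑ c'_i a(n + i) ≠ w'(n)` -/
def count (a : ℕ → ZMod 2) (M ρ : ℕ) {L : ℕ} (c c' : Fin (L + 1) → ZMod 2) (w w' : ℕ → ZMod 2)
    (x : ℕ) : ℕ :=
  #{n ∈ range (x + 1) | n % M = ρ % M ∧ ∑ i : Fin (L + 1), c i * a (n + i) ≠ w n ∧
    ∑ i : Fin (L + 1), c' i * a (n + i) ≠ w' n}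

/-- the sum of the `1 / (n + 1)` over the `n ≤ x` in the residue class `ρ` modulo `M` with
`∑ c_i a(n + i) ≠ w(n)` and `∑ c'_i a(n + i) ≠ w'(n)` -/
noncomputable def logCount (a : ℕ → ZMod 2) (M ρ : ℕ) {L : ℕ} (c c' : Fin (L + 1) → ZMod 2)
    (w w' : ℕ → ZMod 2) (x : ℕ) : ℝ :=
  ∑ n ∈ range (x + 1) with n % M = ρ % M ∧ ∑ i : Fin (L + 1), c i * a (n + i) ≠ w n ∧
    ∑ i : Fin (L + 1), c' i * a (n + i) ≠ w' n, 1 / ((n : ℝ) + 1)

/-- the number of the `n ≤ x` in the residue class `ρ` modulo `M` with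
`(a(n), a(n + h₁), a(n + h₂)) = u` -/
def tripleCount (a : ℕ → ZMod 2) (M ρ h₁ h₂ : ℕ) (u : Fin 3 → ZMod 2) (x : ℕ) : ℕ :=
  #{n ∈ range (x + 1) | n % M = ρ % M ∧ a n = u 0 ∧ a (n + h₁) = u 1 ∧ a (n + h₂) = u 2}

private theorem coeff_P2 (t n : ℕ) :
    PowerSeries.coeff n (Pool.Agent.K7.H72.MT.P2 ^ t) = (multipartitions t n : ZMod 2) :=
  Pool.Agent.H413R3.Part.coeff_pow_eq (t := t) (n := n)

private theorem pat_eq {L : ℕ} (c : Fin (L + 1) → ZMod 2) (t n : ℕ) :
    Pool.Agent.R836.PP.pat c (Pool.Agent.K7.H72.MT.P2 ^ t) n =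
      ∑ i : Fin (L + 1), c i * (multipartitions t (n + i) : ZMod 2) := by
  unfold Pool.Agent.R836.PP.pat
  refine sum_congr rfl fun i _ => ?_
  rw [coeff_P2]

private theorem cPP_eq (M ρ : ℕ) {L : ℕ} (c c' : Fin (L + 1) → ZMod 2) (w w' : ℕ → ZMod 2)
    (t x : ℕ) : Pool.Agent.H558.TW.cPP M ρ c c' w w' t x =
      count (fun n => (multipartitions t n : ZMod 2)) M ρ c c' w w' x := by
  unfold Pool.Agent.H558.TW.cPP count
  simp only [pat_eq]

private theorem LG_eq (M ρ : ℕ) {L : ℕ} (c c' : Fin (L + 1) → ZMod 2) (w w' : ℕ → ZMod 2)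
    (t x : ℕ) : Pool.Agent.H558.TW.LG M ρ c c' w w' t x =
      logCount (fun n => (multipartitions t n : ZMod 2)) M ρ c c' w w' x := by
  unfold Pool.Agent.H558.TW.LG logCount
  simp only [pat_eq]

private theorem parity_eq (t : ℤ_[2]) (n : ℕ) : parity t n = Pool.Agent.K7.H72.MT.pz t n := by
  unfold parity Pool.Agent.K7.H72.MT.pz
  rw [coeff_P2]

private theorem LZ_eq (M ρ : ℕ) {L : ℕ} (c c' : Fin (L + 1) → ZMod 2) (w w' : ℕ → ZMod 2)
    (t : ℤ_[2]) (x : ℕ) : Pool.Agent.H558.TW.LZ M ρ c c' w w' t x =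
      logCount (parity t) M ρ c c' w w' x := by
  unfold Pool.Agent.H558.TW.LZ logCount
  simp only [parity_eq]

private theorem cZZ_eq (M ρ : ℕ) {L : ℕ} (c c' : Fin (L + 1) → ZMod 2) (w w' : ℕ → ZMod 2)
    (t : ℤ_[2]) (x : ℕ) : Pool.Agent.H558.TW.cZZ M ρ c c' w w' t x =
      count (parity t) M ρ c c' w w' x := by
  unfold Pool.Agent.H558.TW.cZZ count
  simp only [parity_eq]

open scoped Classical in
private theorem ncard_eq (p : ℕ → Prop) (K : ℕ) :
    Set.ncard {k : ℕ | k < K ∧ p k} = #{k ∈ range K | p k} := by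
  rw [← Set.ncard_coe_finset]
  congr 1
  ext k
  simp

private theorem cT_eq (t : ℤ_[2]) (M ρ h₁ h₂ : ℕ) (u : Fin 3 → ZMod 2) (x : ℕ) :
    Pool.Agent.H558.TW.cT (Pool.Agent.K7.H72.MT.pz t) M ρ h₁ h₂ u x =
      tripleCount (parity t) M ρ h₁ h₂ u x := by
  have h : parity t = Pool.Agent.K7.H72.MT.pz t := funext (parity_eq t)
  rw [h]
  rfl

private theorem appr_one {t : ℤ_[2]} (h : ‖t‖ = 1) : t.appr 1 = 1 := by
  have h1 := PadicInt.appr_lt t 1
  rw [pow_one] at h1
  by_contra hne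
  have h0 : t.appr 1 = 0 := by omega
  have h2 := PadicInt.appr_spec (p := 2) 1 t
  rw [h0, Nat.cast_zero, sub_zero] at h2
  have h3 := (PadicInt.norm_le_pow_iff_mem_span_pow (p := 2) t 1).2 h2
  rw [h] at h3
  norm_num at h3

private theorem parity_wd (t : ℤ_[2]) (s n k : ℕ) (hn : n < 2 ^ k)
    (h : ‖t - s‖ ≤ (2 : ℝ) ^ (-(k : ℤ))) : parity t n = (multipartitions s n : ZMod 2) := by
  have h2 : ((2 : ℕ) : ℝ) ^ (-(k : ℤ)) = (2 : ℝ) ^ (-(k : ℤ)) := by norm_num
  rw [← h2, PadicInt.norm_le_pow_iff_mem_span_pow] at h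
  have h1 := PadicInt.zmod_congr_of_sub_mem_span (p := 2) k t _ _ (PadicInt.appr_spec (p := 2) k t) h
  rw [ZMod.natCast_eq_natCast_iff] at h1
  rw [parity_eq, Pool.Agent.K7.H72.MT.pz_eq t hn, ← coeff_P2]
  exact Pool.Agent.K7.H72.MT.coeff_congr' hn h1

/-- two nonzero vectors over `F_2` whose sum is nonzero are linearly independent, and conversely -/
private theorem indep {L : ℕ} {c c' : Fin (L + 1) → ZMod 2}
    (h : LinearIndependent (ZMod 2) ![c, c']) : c ≠ 0 ∧ c' ≠ 0 ∧ c + c' ≠ 0 := by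
  rw [LinearIndependent.pair_iff] at h
  refine ⟨?_, ?_, ?_⟩
  · rintro rfl
    have := (h 1 0 (by simp)).1
    exact one_ne_zero this
  · rintro rfl
    have := (h 0 1 (by simp)).2
    exact one_ne_zero this
  · intro h0
    have := (h 1 1 (by rw [one_smul, one_smul]; exact h0)).1
    exact one_ne_zero this

/-- **Main result.** -/
theorem result :
    -- (1) the definition of `parity`
    (∀ (t : ℤ_[2]) (s n k : ℕ), n < 2 ^ k → ‖t - s‖ ≤ (2 : ℝ) ^ (-(k : ℤ)) →
      parity t n = (multipartitions s n : ZMod 2)) ∧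
    -- (2) almost all odd integers `t`
    (∀ b : ℕ, ∀ ε : ℝ, 0 < ε → ∃ δ : ℝ, 0 < δ ∧
      ∀ (ρ L : ℕ) (c c' : Fin (L + 1) → ZMod 2), LinearIndependent (ZMod 2) ![c, c'] →
        ∃ x₀ : ℕ, ∀ (w w' : ℕ → ZMod 2) (x T : ℕ), x₀ ≤ x → x ≤ T →
          (Set.ncard {t : ℕ | t ≤ T ∧ Odd t ∧
            (count (fun n => (multipartitions t n : ZMod 2)) (2 ^ b) ρ c c' w w' x : ℝ) < δ * x} :
              ℝ) ≤ ε * T) ∧
    -- (3) almost all odd integers `t`, all `x ≤ T` at once: logarithmic mean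
    (∀ b : ℕ, ∃ κ : ℝ, 0 < κ ∧ ∀ (ρ L : ℕ) (c c' : Fin (L + 1) → ZMod 2),
      LinearIndependent (ZMod 2) ![c, c'] → ∀ ε : ℝ, 0 < ε → ∃ x₀ : ℕ,
        ∀ (w w' : ℕ → ZMod 2) (T : ℕ),
        (Set.ncard {t : ℕ | t ≤ T ∧ Odd t ∧ ∃ x : ℕ, x₀ ≤ x ∧ x ≤ T ∧
          logCount (fun n => (multipartitions t n : ZMod 2)) (2 ^ b) ρ c c' w w' x <
            κ * Real.log x} : ℝ) ≤ ε * T) ∧
    -- (4) almost all odd 2-adic `t`, two patterns: lower logarithmic density
    (∀ b : ℕ, ∃ κ : ℝ, 0 < κ ∧ ∀ (w w' : ℕ → ZMod 2) [MeasurableSpace ℤ_[2]] [BorelSpace ℤ_[2]]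
      (μ : Measure ℤ_[2]) [IsProbabilityMeasure μ] [μ.IsAddLeftInvariant],
      ∀ᵐ t ∂μ, ‖t‖ = 1 → ∀ (ρ L : ℕ) (c c' : Fin (L + 1) → ZMod 2),
        LinearIndependent (ZMod 2) ![c, c'] → ∃ x₀ : ℕ, ∀ x : ℕ, x₀ ≤ x →
          κ * Real.log x ≤ logCount (parity t) (2 ^ b) ρ c c' w w' x) ∧
    -- (5) almost all odd 2-adic `t`, two patterns: a positive proportion at most scales
    (∀ (b : ℕ) (ε : ℝ), 0 < ε → ∃ δ : ℝ, 0 < δ ∧ ∀ (w w' : ℕ → ZMod 2)
      [MeasurableSpace ℤ_[2]] [BorelSpace ℤ_[2]] (μ : Measure ℤ_[2]) [IsProbabilityMeasure μ]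
      [μ.IsAddLeftInvariant], ∀ᵐ t ∂μ, ‖t‖ = 1 →
        ∀ (ρ L : ℕ) (c c' : Fin (L + 1) → ZMod 2), LinearIndependent (ZMod 2) ![c, c'] →
          ∃ K₀ : ℕ, ∀ K : ℕ, K₀ ≤ K → (Set.ncard {k : ℕ | k < K ∧
            (count (parity t) (2 ^ b) ρ c c' w w' (2 ^ k) : ℝ) < δ * 2 ^ k} : ℝ) ≤ ε * K) ∧
    -- (6) almost all odd 2-adic `t`, triples of parities
    (∀ b : ℕ, ∃ κ : ℝ, 0 < κ ∧ ∀ [MeasurableSpace ℤ_[2]] [BorelSpace ℤ_[2]] (μ : Measure ℤ_[2])
      [IsProbabilityMeasure μ] [μ.IsAddLeftInvariant],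
      ∀ᵐ t ∂μ, ‖t‖ = 1 → ∀ ρ h₁ h₂ : ℕ, 0 < h₁ → h₁ < h₂ → ∃ u₀ : Fin 3 → ZMod 2,
        ∀ u : Fin 3 → ZMod 2, u ≠ u₀ → ∀ x₁ : ℕ, ∃ x : ℕ, x₁ ≤ x ∧
          κ * x ≤ tripleCount (parity t) (2 ^ b) ρ h₁ h₂ u x) := by
  classical
  refine ⟨parity_wd, ?_, ?_, ?_, ?_, ?_⟩
  · intro b ε hε
    obtain ⟨δ, hδ, hc⟩ := Pool.Agent.H558.TW.hCLN b (ε / 2) (half_pos hε)
    refine ⟨δ, hδ, fun ρ L c c' hcc => ?_⟩
    obtain ⟨i1, i2, i3⟩ := indep hcc
    obtain ⟨x₀, h1⟩ := hc ρ L c c' i1 i2 i3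
    refine ⟨max x₀ 1, fun w w' x T hx hxT => ?_⟩
    have hx0 : x₀ ≤ x := (le_max_left _ _).trans hx
    have hT0 : T ≠ 0 := by
      have : 1 ≤ x := (le_max_right _ _).trans hx
      omega
    set K := Nat.log 2 T + 1 with hK
    have hTK : T < 2 ^ K := Nat.lt_pow_succ_log_self (by norm_num) T
    have hKT : 2 ^ K ≤ 2 * T := by
      rw [hK, pow_succ, mul_comm]
      exact Nat.mul_le_mul_left 2 (Nat.pow_log_le_self 2 hT0)
    have h2 := h1 w w' x K hx0 (lt_of_le_of_lt hxT hTK)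
    simp only [cPP_eq] at h2
    have h3 : Set.ncard {t : ℕ | t ≤ T ∧ Odd t ∧
        (count (fun n => (multipartitions t n : ZMod 2)) (2 ^ b) ρ c c' w w' x : ℝ) < δ * x} ≤
        #{t ∈ range (2 ^ K) | t % 2 = 1 ∧
          (count (fun n => (multipartitions t n : ZMod 2)) (2 ^ b) ρ c c' w w' x : ℝ) <
            δ * x} := by
      rw [← Set.ncard_coe_finset]
      refine Set.ncard_le_ncard ?_ (Finset.finite_toSet _)
      rintro t ⟨ht1, ht2, ht3⟩
      rw [Finset.mem_coe, Finset.mem_filter, Finset.mem_range]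
      exact ⟨by omega, Nat.odd_iff.1 ht2, ht3⟩
    have hKT' : (2 : ℝ) ^ K ≤ 2 * T := by exact_mod_cast hKT
    calc _ ≤ ((#{t ∈ range (2 ^ K) | t % 2 = 1 ∧
          (count (fun n => (multipartitions t n : ZMod 2)) (2 ^ b) ρ c c' w w' x : ℝ) <
            δ * x} : ℕ) : ℝ) := by exact_mod_cast h3
      _ ≤ ε / 2 * 2 ^ K := h2
      _ ≤ ε / 2 * (2 * T) := by gcongr
      _ = ε * T := by ring
  · intro b
    obtain ⟨κ, hκ, h⟩ := Pool.Agent.H558.TW.int2 b
    refine ⟨κ, hκ, fun ρ L c c' hcc ε hε => ?_⟩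
    obtain ⟨i1, i2, i3⟩ := indep hcc
    obtain ⟨x₀, h1⟩ := h ρ L c c' i1 i2 i3 ε hε
    refine ⟨x₀, fun w w' T => ?_⟩
    have h2 := h1 w w' T
    simp only [LG_eq] at h2
    exact h2
  · intro b
    obtain ⟨κ, hκ, h⟩ := Pool.Agent.H558.TW.hGE b
    refine ⟨κ, hκ, fun w w' _ _ μ _ _ => ?_⟩
    filter_upwards [h w w' μ] with t ht h1 ρ L c c' hcc
    obtain ⟨i1, i2, i3⟩ := indep hcc
    have h2 := ht (appr_one h1) ρ L c c' i1 i2 i3
    simp only [LZ_eq] at h2
    exact h2
  · intro b ε hε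
    obtain ⟨δ, hδ, h⟩ := Pool.Agent.H558.TW.hHE b ε hε
    refine ⟨δ, hδ, fun w w' _ _ μ _ _ => ?_⟩
    filter_upwards [h w w' μ] with t ht h1 ρ L c c' hcc
    obtain ⟨i1, i2, i3⟩ := indep hcc
    obtain ⟨K₀, h2⟩ := ht (appr_one h1) ρ L c c' i1 i2 i3
    refine ⟨K₀, fun K hK => ?_⟩
    have h3 := h2 K hK
    simp only [cZZ_eq] at h3
    rw [ncard_eq]
    convert h3
  · intro b
    obtain ⟨κ, hκ, h⟩ := Pool.Agent.H558.TW.hTRIU b
    refine ⟨κ, hκ, ?_⟩
    intro _ _ μ _ _
    filter_upwards [h μ] with t ht h1 ρ h₁ h₂ g1 g2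
    have h2 := ht (appr_one h1) ρ h₁ h₂ g1 g2
    simp only [cT_eq] at h2
    exact h2

end Pool.Agent.Results.MP_a3366f_nt.TwoPatterns
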